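import Mathlib

set_option autoImplicit false

namespace Pool.Agent.Results.MP_836feb_al.Retract

universe u v

/-- The free Burnside group of exponent `n` on the set `X`: the free group modulo the normal
closure of all `n`-th powers. -/
abbrev Burnside (X : Type u) (n : ℕ) : Type u :=
  FreeGroup X ⧸ Subgroup.normalClosure (Set.range fun w : FreeGroup X => w ^ n)

def liftB {X : Type u} {n : ℕ} {K : Type*} [Group K] (hK : ∀ k : K, k ^ n = 1) (f : X → K) :
    Burnside X n →* K :=
  QuotientGroup.lift _ (FreeGroup.lift f) (by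
    intro x hx
    have : Subgroup.normalClosure (Set.range fun w : FreeGroup X => w ^ n) ≤
        (FreeGroup.lift f).ker := by
      apply Subgroup.normalClosure_le_normal
      rintro _ ⟨w, rfl⟩
      simp [hK]
    exact this hx)

lemma liftB_of {X : Type u} {n : ℕ} {K : Type*} [Group K] (hK : ∀ k : K, k ^ n = 1) (f : X → K)
    (x : X) : liftB hK f (QuotientGroup.mk (FreeGroup.of x)) = f x := by
  simp [liftB]

lemma B_exp {X : Type u} {n : ℕ} (g : Burnside X n) : g ^ n = 1 := by
  obtain ⟨w, rfl⟩ := QuotientGroup.mk_surjective g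
  rw [← QuotientGroup.mk_pow, QuotientGroup.eq_one_iff]
  exact Subgroup.subset_normalClosure ⟨w, rfl⟩

lemma gen_pow {X : Type u} {n : ℕ} (x : X) (k : ℕ)
    (h : (QuotientGroup.mk (FreeGroup.of x) : Burnside X n) ^ k = 1) : n ∣ k := by
  have hK : ∀ z : Multiplicative (ZMod n), z ^ n = 1 := fun z => by
    apply Multiplicative.toAdd.injective
    simp
  have := congrArg (liftB hK (fun _ : X => Multiplicative.ofAdd (1 : ZMod n))) h
  rw [map_pow, liftB_of, MonoidHom.map_one] at this
  have h2 := congrArg Multiplicative.toAdd this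
  simp only [toAdd_pow, toAdd_ofAdd, nsmul_eq_mul, mul_one, toAdd_one] at h2
  exact (ZMod.natCast_eq_zero_iff k n).1 h2

theorem result (a b : ℕ) (ha : 1 < a) (hb : 1 < b) (hab : Nat.Coprime a b)
    (X : Type u) [Nonempty X] :
    ∃ H : Subgroup (Burnside X (a * b)),
      (∃ ρ : Burnside X (a * b) →* H, ∀ h : H, ρ h = h) ∧
      ∀ Y : Type v, IsEmpty (H ≃* Burnside Y (a * b)) := by
  classical
  obtain ⟨x⟩ := ‹Nonempty X›
  set g : Burnside X (a * b) := QuotientGroup.mk (FreeGroup.of x) with hg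
  obtain ⟨c, hc⟩ := Nat.exists_mul_mod_eq_one_of_coprime hab.symm ha
  obtain ⟨-, hc⟩ := hc
  have hga : (g ^ b) ^ a = 1 := by rw [← pow_mul, mul_comm b a]; exact B_exp g
  have hH : ∀ h : Subgroup.zpowers (g ^ b), h ^ a = 1 := by
    rintro ⟨_, k, rfl⟩
    apply Subtype.ext
    show ((g ^ b) ^ k) ^ a = 1
    rw [← zpow_natCast, ← zpow_mul, mul_comm k (a : ℤ), zpow_mul, zpow_natCast, hga, one_zpow]
  have hH' : ∀ h : Subgroup.zpowers (g ^ b), h ^ (a * b) = 1 := fun h => by
    rw [pow_mul, hH, one_pow]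
  refine ⟨Subgroup.zpowers (g ^ b), ⟨liftB hH' (fun y => if y = x then
    (⟨g ^ b, Subgroup.mem_zpowers _⟩ : Subgroup.zpowers (g ^ b)) ^ c else 1), ?_⟩, ?_⟩
  · rintro ⟨_, k, rfl⟩
    show liftB hH' _ ((g ^ b) ^ k) = _
    rw [map_zpow, map_pow, liftB_of, if_pos rfl, ← pow_mul, mul_comm c b,
      ← Nat.div_add_mod (b * c) a, hc, pow_add, pow_mul, hH, one_pow, one_mul, pow_one]
    rfl
  · intro Y
    constructor
    intro e
    by_cases hY : Nonempty Y
    · obtain ⟨y⟩ := hY
      have h1 : (QuotientGroup.mk (FreeGroup.of y) : Burnside Y (a * b)) ^ a = 1 := by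
        rw [← e.apply_symm_apply (QuotientGroup.mk (FreeGroup.of y)), ← map_pow, hH, map_one]
      have := Nat.le_of_dvd (by omega) (gen_pow y a h1)
      nlinarith
    · have hE : IsEmpty Y := not_nonempty_iff.1 hY
      have h1 : e ⟨g ^ b, Subgroup.mem_zpowers _⟩ = 1 := by
        obtain ⟨w, hw⟩ := QuotientGroup.mk_surjective (e ⟨g ^ b, Subgroup.mem_zpowers _⟩)
        rw [← hw, Subsingleton.elim w 1]
        rfl
      rw [EmbeddingLike.map_eq_one_iff] at h1
      have h2 : g ^ b = 1 := congrArg Subtype.val h1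
      have := Nat.le_of_dvd (by omega) (gen_pow x b h2)
      nlinarith

end Pool.Agent.Results.MP_836feb_al.Retract
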